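import Pool.Agent.helper70.GB.SpecK
import Pool.Agent.helper65.GB.Elem

/-!
# Project gb, part PH: the homomorphism `φ_c`

The class of the matrix `[[β, c], [-t, adj β]]` with `det β + c t = 1`.
-/

open Matrix

namespace GB

universe u

section Aux

variable {A : Type u} [CommRing A]

/-- the matrix of the class. -/
def PH_M {ι : Type} [Fintype ι] [DecidableEq ι] (c : A) (β : Matrix ι ι A) (t : A) :
    Matrix (ι ⊕ ι) (ι ⊕ ι) A :=
  Matrix.fromBlocks β (c • (1 : Matrix ι ι A)) (-(t • (1 : Matrix ι ι A))) β.adjugate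

theorem PH_M_unit {ι : Type} [Fintype ι] [DecidableEq ι] (c : A) (β : Matrix ι ι A) (t : A)
    (h : β.det + c * t = 1) : IsUnit (PH_M c β t).det := by
  refine Matrix.isUnit_det_of_right_inverse
    (B := Matrix.fromBlocks β.adjugate (-(c • (1 : Matrix ι ι A))) (t • (1 : Matrix ι ι A)) β) ?_
  rw [PH_M, Matrix.fromBlocks_multiply, ← Matrix.fromBlocks_one]
  congr 1
  · rw [Matrix.mul_adjugate, Matrix.smul_mul, Matrix.one_mul, smul_smul, ← add_smul, h, one_smul]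
  · simp
  · simp
  · rw [Matrix.adjugate_mul, neg_mul_neg, Matrix.smul_mul, Matrix.one_mul, smul_smul, ← add_smul,
      mul_comm t c, add_comm, h, one_smul]

theorem PH_k_E_mul (𝒦 : K1Data.{u} A) {ι : Type} [Fintype ι] [DecidableEq ι] {g M : Matrix ι ι A}
    (hg : g ∈ E ι A) (hM : IsUnit M.det) : 𝒦.k (g * M) = 𝒦.k M := by
  rw [𝒦.k_mul g M (by rw [det_of_mem_E hg]; exact isUnit_one) hM, 𝒦.k_E g hg, zero_add]

theorem PH_k_mul_E (𝒦 : K1Data.{u} A) {ι : Type} [Fintype ι] [DecidableEq ι] {g M : Matrix ι ι A}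
    (hM : IsUnit M.det) (hg : g ∈ E ι A) : 𝒦.k (M * g) = 𝒦.k M := by
  rw [𝒦.k_mul M g hM (by rw [det_of_mem_E hg]; exact isUnit_one), 𝒦.k_E g hg, add_zero]

/-- `3 × 3` block matrices. -/
def PH_C {ι : Type} [Fintype ι] [DecidableEq ι] (M : Matrix (Fin 3) (Fin 3) (Matrix ι ι A)) :
    Matrix (Fin 3 × ι) (Fin 3 × ι) A := Matrix.compRingEquiv (Fin 3) ι A M

theorem PH_C_mul {ι : Type} [Fintype ι] [DecidableEq ι]
    (M N : Matrix (Fin 3) (Fin 3) (Matrix ι ι A)) : PH_C (M * N) = PH_C M * PH_C N :=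
  map_mul (Matrix.compRingEquiv (Fin 3) ι A) M N

theorem PH_C_apply {ι : Type} [Fintype ι] [DecidableEq ι]
    (M : Matrix (Fin 3) (Fin 3) (Matrix ι ι A)) (p q : Fin 3 × ι) :
    PH_C M p q = M p.1 q.1 p.2 q.2 := rfl

theorem PH_C_transvection {ι : Type} [Fintype ι] [DecidableEq ι] (i j : Fin 3) (hij : i ≠ j)
    (X : Matrix ι ι A) (M : Matrix (Fin 3) (Fin 3) (Matrix ι ι A))
    (hM : M = 1 + Matrix.single i j X) : PH_C M ∈ E (Fin 3 × ι) A := by
  have h1 : PH_C M = 1 + PH_C (Matrix.single i j X) := by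
    rw [hM]
    have h2 := map_add (Matrix.compRingEquiv (Fin 3) ι A) 1 (Matrix.single i j X)
    rw [map_one] at h2
    exact h2
  rw [h1]
  refine E_one_add (fun p => p.1 = i) _ ?_
  rintro ⟨a, x⟩ ⟨b, y⟩ h
  rw [PH_C_apply]
  simp only at h ⊢
  by_cases ha : a = i
  · by_cases hb : b = i
    · have : (Matrix.single i j X : Matrix (Fin 3) (Fin 3) (Matrix ι ι A)) a b = 0 := by
        rw [Matrix.single_apply_of_ne]
        rintro ⟨_, h'⟩
        exact hij (hb.symm.trans h'.symm)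
      rw [this]; rfl
    · exact absurd ⟨ha, hb⟩ h
  · have : (Matrix.single i j X : Matrix (Fin 3) (Fin 3) (Matrix ι ι A)) a b = 0 := by
      rw [Matrix.single_apply_of_ne]
      rintro ⟨h', _⟩
      exact ha h'.symm
    rw [this]; rfl

/-- positions one and two. -/
def PH_e12 (ι : Type) : (ι ⊕ ι) ⊕ ι ≃ Fin 3 × ι where
  toFun
    | Sum.inl (Sum.inl x) => (0, x)
    | Sum.inl (Sum.inr x) => (1, x)
    | Sum.inr x => (2, x)
  invFun
    | (0, x) => Sum.inl (Sum.inl x)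
    | (1, x) => Sum.inl (Sum.inr x)
    | (2, x) => Sum.inr x
  left_inv := by
    rintro ((x | x) | x) <;> rfl
  right_inv := by
    rintro ⟨a, x⟩
    fin_cases a <;> rfl

/-- positions one and three. -/
def PH_e13 (ι : Type) : (ι ⊕ ι) ⊕ ι ≃ Fin 3 × ι where
  toFun
    | Sum.inl (Sum.inl x) => (0, x)
    | Sum.inl (Sum.inr x) => (2, x)
    | Sum.inr x => (1, x)
  invFun
    | (0, x) => Sum.inl (Sum.inl x)
    | (2, x) => Sum.inl (Sum.inr x)
    | (1, x) => Sum.inr x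
  left_inv := by
    rintro ((x | x) | x) <;> rfl
  right_inv := by
    rintro ⟨a, x⟩
    fin_cases a <;> rfl

theorem PH_C12 {ι : Type} [Fintype ι] [DecidableEq ι] (X Y Z T : Matrix ι ι A) :
    PH_C !![X, Y, 0; Z, T, 0; 0, 0, 1] =
      Matrix.reindex (PH_e12 ι) (PH_e12 ι) (dsum (Matrix.fromBlocks X Y Z T)
        (1 : Matrix ι ι A)) := by
  ext ⟨a, x⟩ ⟨b, y⟩
  fin_cases a <;> fin_cases b <;> rfl

theorem PH_C13 {ι : Type} [Fintype ι] [DecidableEq ι] (X Y Z T : Matrix ι ι A) :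
    PH_C !![X, 0, Y; 0, 1, 0; Z, 0, T] =
      Matrix.reindex (PH_e13 ι) (PH_e13 ι) (dsum (Matrix.fromBlocks X Y Z T)
        (1 : Matrix ι ι A)) := by
  ext ⟨a, x⟩ ⟨b, y⟩
  fin_cases a <;> fin_cases b <;> rfl

theorem PH_det_dsum {ι κ : Type} [Fintype ι] [DecidableEq ι] [Fintype κ] [DecidableEq κ]
    (M : Matrix ι ι A) (N : Matrix κ κ A) : (dsum M N).det = M.det * N.det := by
  rw [dsum, Matrix.det_fromBlocks_zero₂₁]

theorem PH_k_C12 (𝒦 : K1Data.{u} A) {ι : Type} [Fintype ι] [DecidableEq ι] (X Y Z T : Matrix ι ι A)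
    (h : IsUnit (Matrix.fromBlocks X Y Z T).det) :
    IsUnit (PH_C !![X, Y, 0; Z, T, 0; 0, 0, 1]).det ∧
    𝒦.k (PH_C !![X, Y, 0; Z, T, 0; 0, 0, 1]) = 𝒦.k (Matrix.fromBlocks X Y Z T) := by
  rw [PH_C12]
  refine ⟨?_, ?_⟩
  · rw [Matrix.det_reindex_self, PH_det_dsum, Matrix.det_one, mul_one]
    exact h
  · rw [𝒦.k_reindex, 𝒦.k_dsum_one _ h]

theorem PH_k_C13 (𝒦 : K1Data.{u} A) {ι : Type} [Fintype ι] [DecidableEq ι] (X Y Z T : Matrix ι ι A)
    (h : IsUnit (Matrix.fromBlocks X Y Z T).det) :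
    IsUnit (PH_C !![X, 0, Y; 0, 1, 0; Z, 0, T]).det ∧
    𝒦.k (PH_C !![X, 0, Y; 0, 1, 0; Z, 0, T]) = 𝒦.k (Matrix.fromBlocks X Y Z T) := by
  rw [PH_C13]
  refine ⟨?_, ?_⟩
  · rw [Matrix.det_reindex_self, PH_det_dsum, Matrix.det_one, mul_one]
    exact h
  · rw [𝒦.k_reindex, 𝒦.k_dsum_one _ h]

theorem PH_T23 {ι : Type} [Fintype ι] [DecidableEq ι] (X : Matrix ι ι A) :
    PH_C !![1, 0, 0; 0, 1, X; 0, 0, 1] ∈ E (Fin 3 × ι) A := by
  refine PH_C_transvection 1 2 (by decide) X _ ?_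
  refine Matrix.ext fun i j => ?_
  fin_cases i <;> fin_cases j <;>
    first | exact (add_zero (1 : Matrix ι ι A)).symm | exact (zero_add (0 : Matrix ι ι A)).symm |
      exact (zero_add X).symm

theorem PH_T32 {ι : Type} [Fintype ι] [DecidableEq ι] (X : Matrix ι ι A) :
    PH_C !![1, 0, 0; 0, 1, 0; 0, X, 1] ∈ E (Fin 3 × ι) A := by
  refine PH_C_transvection 2 1 (by decide) X _ ?_
  refine Matrix.ext fun i j => ?_
  fin_cases i <;> fin_cases j <;>
    first | exact (add_zero (1 : Matrix ι ι A)).symm | exact (zero_add (0 : Matrix ι ι A)).symm |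
      exact (zero_add X).symm

theorem PH_T31 {ι : Type} [Fintype ι] [DecidableEq ι] (X : Matrix ι ι A) :
    PH_C !![1, 0, 0; 0, 1, 0; X, 0, 1] ∈ E (Fin 3 × ι) A := by
  refine PH_C_transvection 2 0 (by decide) X _ ?_
  refine Matrix.ext fun i j => ?_
  fin_cases i <;> fin_cases j <;>
    first | exact (add_zero (1 : Matrix ι ι A)).symm | exact (zero_add (0 : Matrix ι ι A)).symm |
      exact (zero_add X).symm

/-- the identity behind multiplicativity. -/
theorem PH_identity {R : Type*} [Ring R] (b b' g g' c t u s d : R)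
    (hc : ∀ x, c * x = x * c) (ht : ∀ x, t * x = x * t)
    (hb : b' * b + t * c = 1) (hg : g' * g = d) (hs : s = u + t * d) :
    !![1, 0, 0; 0, 1, 1; 0, 0, 1] * (!![1, 0, 0; 0, 1, 0; 0, -1, 1] *
      (!![1, 0, 0; 0, 1, 1; 0, 0, 1] * (!![1, 0, 0; 0, 1, 0; 0, g', 1] *
      (((!![b, c, 0; -t, b', 0; 0, 0, 1] * !![g, 0, c; 0, 1, 0; -u, 0, g']) *
      !![1, 0, 0; 0, 1, -b; 0, 0, 1]) * !![1, 0, 0; 0, 1, 0; -(t * g), 0, 1] *
      !![1, 0, 0; 0, 1, 0; 0, b', 1])))) =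
    !![b * g, c, 0; -s, g' * b', 0; 0, 0, (1 : R)] := by
  have e1 : !![b, c, 0; -t, b', 0; 0, 0, 1] * !![g, 0, c; 0, 1, 0; -u, 0, g'] =
      !![b * g, c, b * c; -(t * g), b', -(t * c); -u, 0, (g' : R)] := by
    rw [Matrix.mul_fin_three]
    simp only [mul_zero, zero_mul, mul_one, one_mul, add_zero, zero_add, neg_mul]
  have e2 : !![b * g, c, b * c; -(t * g), b', -(t * c); -u, 0, (g' : R)] *
      !![1, 0, 0; 0, 1, -b; 0, 0, 1] =
      !![b * g, c, 0; -(t * g), b', -1; -u, 0, (g' : R)] := by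
    rw [Matrix.mul_fin_three]
    have h1 : -(c * b) + b * c = 0 := by rw [hc b]; abel
    have h2 : -(b' * b) + -(t * c) = -1 := by rw [← hb]; abel
    simp only [mul_zero, zero_mul, mul_one, add_zero, zero_add, mul_neg,
      neg_zero, h1, h2]
  have e3 : !![b * g, c, 0; -(t * g), b', -1; -u, 0, (g' : R)] *
      !![1, 0, 0; 0, 1, 0; -(t * g), 0, 1] =
      !![b * g, c, 0; 0, b', -1; -s, 0, (g' : R)] := by
    rw [Matrix.mul_fin_three]
    have h1 : g' * (t * g) = t * d := by rw [← hg, ← mul_assoc, ← ht g', mul_assoc]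
    have h2 : -u + -(t * d) = -s := by rw [hs]; abel
    have h3 : -(t * g) + t * g = 0 := by abel
    simp only [mul_zero, zero_mul, mul_one, one_mul, add_zero, zero_add, mul_neg, neg_mul,
      neg_neg, neg_zero, h1, h2, h3]
  have e4 : !![b * g, c, 0; 0, b', -1; -s, 0, (g' : R)] *
      !![1, 0, 0; 0, 1, 0; 0, b', 1] =
      !![b * g, c, 0; 0, 0, -1; -s, g' * b', (g' : R)] := by
    rw [Matrix.mul_fin_three]
    simp only [mul_zero, zero_mul, mul_one, one_mul, add_zero, zero_add, neg_mul, add_neg_cancel]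
  have e5 : !![1, 0, 0; 0, 1, 0; 0, g', 1] * !![b * g, c, 0; 0, 0, -1; -s, g' * b', (g' : R)] =
      !![b * g, c, 0; 0, 0, -1; -s, g' * b', (0 : R)] := by
    rw [Matrix.mul_fin_three]
    simp only [mul_zero, zero_mul, mul_one, one_mul, add_zero, zero_add, mul_neg, neg_zero,
      neg_add_cancel]
  have e6 : !![1, 0, 0; 0, 1, 1; 0, 0, 1] * !![b * g, c, 0; 0, 0, -1; -s, g' * b', (0 : R)] =
      !![b * g, c, 0; -s, g' * b', -1; -s, g' * b', (0 : R)] := by
    rw [Matrix.mul_fin_three]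
    simp only [mul_zero, zero_mul, one_mul, add_zero, zero_add]
  have e7 : !![1, 0, 0; 0, 1, 0; 0, -1, 1] *
      !![b * g, c, 0; -s, g' * b', -1; -s, g' * b', (0 : R)] =
      !![b * g, c, 0; -s, g' * b', -1; 0, 0, (1 : R)] := by
    rw [Matrix.mul_fin_three]
    have h3 : s + -s = 0 := by abel
    have h4 : -(g' * b') + g' * b' = 0 := by abel
    simp only [mul_zero, zero_mul, one_mul, add_zero, zero_add, neg_mul, mul_neg, neg_neg,
      neg_zero, h3, h4]
  have e8 : !![1, 0, 0; 0, 1, 1; 0, 0, 1] *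
      !![b * g, c, 0; -s, g' * b', -1; 0, 0, (1 : R)] =
      !![b * g, c, 0; -s, g' * b', 0; 0, 0, (1 : R)] := by
    rw [Matrix.mul_fin_three]
    simp only [mul_zero, zero_mul, one_mul, add_zero, zero_add, neg_add_cancel]
  rw [e1, e2, e3, e4, e5, e6, e7, e8]

/-- multiplicativity. -/
theorem PH_mul (𝒦 : K1Data.{u} A) (c : A) {ι : Type} [Fintype ι] [DecidableEq ι]
    (β γ : Matrix ι ι A) (t u : A) (hβ : β.det + c * t = 1) (hγ : γ.det + c * u = 1) :
    𝒦.k (PH_M c (β * γ) (u + t * γ.det)) = 𝒦.k (PH_M c β t) + 𝒦.k (PH_M c γ u) := by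
  have hβγ : (β * γ).det + c * (u + t * γ.det) = 1 := by
    rw [Matrix.det_mul]
    linear_combination γ.det * hβ + hγ
  have id1 := PH_identity (R := Matrix ι ι A) β β.adjugate γ γ.adjugate (c • 1) (t • 1) (u • 1)
    ((u + t * γ.det) • 1) (γ.det • 1) (fun x => by simp) (fun x => by simp)
    (by rw [Matrix.adjugate_mul, Matrix.smul_mul, Matrix.one_mul, smul_smul, ← add_smul,
          mul_comm t c, hβ, one_smul])
    (Matrix.adjugate_mul γ)
    (by rw [Matrix.smul_mul, Matrix.one_mul, smul_smul, ← add_smul])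
  have id2 := congrArg PH_C id1
  rw [← Matrix.adjugate_mul_distrib] at id2
  simp only [PH_C_mul] at id2
  obtain ⟨uP, kP⟩ := PH_k_C12 𝒦 β (c • 1) (-(t • 1)) β.adjugate (PH_M_unit c β t hβ)
  obtain ⟨uQ, kQ⟩ := PH_k_C13 𝒦 γ (c • 1) (-(u • 1)) γ.adjugate (PH_M_unit c γ u hγ)
  obtain ⟨uR, kR⟩ := PH_k_C12 𝒦 (β * γ) (c • 1) (-((u + t * γ.det) • 1)) (β * γ).adjugate
    (PH_M_unit c (β * γ) _ hβγ)
  have uPQ := uP.mul uQ
  rw [← Matrix.det_mul] at uPQ
  have uPQ2 : IsUnit (PH_C !![β, c • 1, 0; -(t • 1), β.adjugate, 0; 0, 0, 1] *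
      PH_C !![γ, 0, c • 1; 0, 1, 0; -(u • 1), 0, γ.adjugate]).det := uPQ
  have key := congrArg (fun M => 𝒦.k M) id2
  have u1 : IsUnit (PH_C !![β, c • 1, 0; -(t • 1), β.adjugate, 0; 0, 0, 1] *
      PH_C !![γ, 0, c • 1; 0, 1, 0; -(u • 1), 0, γ.adjugate] *
      PH_C !![1, 0, 0; 0, 1, -β; 0, 0, 1]).det := by
    rw [Matrix.det_mul, det_of_mem_E (PH_T23 _), mul_one]; exact uPQ
  have u2 : IsUnit (PH_C !![β, c • 1, 0; -(t • 1), β.adjugate, 0; 0, 0, 1] *
      PH_C !![γ, 0, c • 1; 0, 1, 0; -(u • 1), 0, γ.adjugate] *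
      PH_C !![1, 0, 0; 0, 1, -β; 0, 0, 1] *
      PH_C !![1, 0, 0; 0, 1, 0; -(t • 1 * γ), 0, 1]).det := by
    rw [Matrix.det_mul, det_of_mem_E (PH_T31 _), mul_one]; exact u1
  have u3 : IsUnit (PH_C !![β, c • 1, 0; -(t • 1), β.adjugate, 0; 0, 0, 1] *
      PH_C !![γ, 0, c • 1; 0, 1, 0; -(u • 1), 0, γ.adjugate] *
      PH_C !![1, 0, 0; 0, 1, -β; 0, 0, 1] *
      PH_C !![1, 0, 0; 0, 1, 0; -(t • 1 * γ), 0, 1] *
      PH_C !![1, 0, 0; 0, 1, 0; 0, β.adjugate, 1]).det := by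
    rw [Matrix.det_mul, det_of_mem_E (PH_T32 _), mul_one]; exact u2
  have hE {g M : Matrix (Fin 3 × ι) (Fin 3 × ι) A} (hg : g ∈ E (Fin 3 × ι) A)
      (hM : IsUnit M.det) : IsUnit (g * M).det := by
    rw [Matrix.det_mul, det_of_mem_E hg, one_mul]; exact hM
  have u4 := hE (PH_T32 γ.adjugate) u3
  have u5 := hE (PH_T23 1) u4
  have u6 := hE (PH_T32 (-1)) u5
  rw [PH_k_E_mul 𝒦 (PH_T23 1) u6, PH_k_E_mul 𝒦 (PH_T32 (-1)) u5, PH_k_E_mul 𝒦 (PH_T23 1) u4,
    PH_k_E_mul 𝒦 (PH_T32 γ.adjugate) u3, PH_k_mul_E 𝒦 u2 (PH_T32 _), PH_k_mul_E 𝒦 u1 (PH_T31 _),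
    PH_k_mul_E 𝒦 uPQ (PH_T23 _), 𝒦.k_mul _ _ uP uQ, kP, kQ, kR] at key
  exact key.symm

/-- dependence on `β` modulo `c`. -/
theorem PH_mod (𝒦 : K1Data.{u} A) (c : A) {ι : Type} [Fintype ι] [DecidableEq ι]
    (β γ Y : Matrix ι ι A) (t u : A) (hβ : β.det + c * t = 1) (hγ : γ.det + c * u = 1)
    (h : γ = β + c • Y) : 𝒦.k (PH_M c β t) = 𝒦.k (PH_M c γ u) := by
  have uβ := PH_M_unit c β t hβ
  have uγ := PH_M_unit c γ u hγ
  have h1 : β.adjugate * γ = (1 : Matrix ι ι A) + c • (β.adjugate * Y - t • 1) := by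
    rw [h, Matrix.mul_add, Matrix.adjugate_mul, Matrix.mul_smul, smul_sub, smul_smul,
      show β.det = 1 - c * t by linear_combination hβ, sub_smul, one_smul]
    abel
  have h2 : γ.adjugate * γ = (1 - c * u) • (1 : Matrix ι ι A) := by
    rw [Matrix.adjugate_mul, show γ.det = 1 - c * u by linear_combination hγ]
  have h3 : γ * γ.adjugate = (1 - c * u) • (1 : Matrix ι ι A) := by
    rw [Matrix.mul_adjugate, show γ.det = 1 - c * u by linear_combination hγ]
  set Z := β.adjugate * Y - t • (1 : Matrix ι ι A) with hZ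
  have key : Matrix.fromBlocks 1 0 (Z * γ.adjugate + u • β.adjugate) 1 * PH_M c γ u =
      PH_M c β t * Matrix.fromBlocks 1 0 Y 1 := by
    rw [PH_M, PH_M, Matrix.fromBlocks_multiply, Matrix.fromBlocks_multiply]
    congr 1
    · rw [h]; simp
    · simp
    · have e1 : (Z * γ.adjugate + u • β.adjugate) * γ = Z + u • 1 := by
        rw [Matrix.add_mul, Matrix.mul_assoc, h2, Matrix.smul_mul, h1, Matrix.mul_smul,
          Matrix.mul_one, sub_smul, one_smul, smul_add, smul_smul, mul_comm u c]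
        abel
      rw [e1, hZ]
      simp
      abel
    · have e1 : (Z * γ.adjugate + u • β.adjugate) * (c • (1 : Matrix ι ι A)) + 1 * γ.adjugate =
          (1 + c • Z) * γ.adjugate + (c * u) • β.adjugate := by
        rw [Matrix.mul_smul, Matrix.mul_one, smul_add, smul_smul, Matrix.add_mul, Matrix.smul_mul]
        abel
      rw [e1, ← h1, Matrix.mul_assoc, h3, Matrix.mul_smul, Matrix.mul_one, sub_smul, one_smul]
      simp
  have key2 := congrArg (fun M => 𝒦.k M) key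
  rw [PH_k_E_mul 𝒦 (E_blocks_lower _) uγ, PH_k_mul_E 𝒦 uβ (E_blocks_lower _)] at key2
  exact key2.symm

/-- elementary matrices. -/
theorem PH_elem (𝒦 : K1Data.{u} A) (c : A) {ι : Type} [Fintype ι] [DecidableEq ι]
    (β : Matrix ι ι A) (t : A) (hE : β ∈ E ι A) (hβ : β.det + c * t = 1) :
    𝒦.k (PH_M c β t) = 0 := by
  have hdet : β.det = 1 := det_of_mem_E hE
  have hct : c * t = 0 := by rw [hdet] at hβ; linear_combination hβ
  obtain ⟨N, hN, h1, h2⟩ := exists_inv_of_mem_E hE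
  have hadj : β.adjugate = N := by
    calc β.adjugate = β.adjugate * (β * N) := by rw [h1, Matrix.mul_one]
      _ = N := by rw [← Matrix.mul_assoc, Matrix.adjugate_mul, hdet, one_smul, Matrix.one_mul]
  refine 𝒦.k_E _ ?_
  have key : PH_M c β t = Matrix.fromBlocks β 0 0 1 * Matrix.fromBlocks 1 0 0 N *
      Matrix.fromBlocks 1 0 (-(t • β)) 1 * Matrix.fromBlocks 1 (c • N) 0 1 := by
    rw [PH_M, Matrix.fromBlocks_multiply, Matrix.fromBlocks_multiply, Matrix.fromBlocks_multiply,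
      hadj]
    congr 1
    · simp
    · simp [h1]
    · simp [h2]
    · have : N * β * N = N := by rw [h2, Matrix.one_mul]
      simp [smul_smul, hct]
  rw [key]
  exact E_mul (E_mul (E_mul (E_blocks_left hE) (E_blocks_right hN)) (E_blocks_lower _))
    (E_blocks_upper _)

theorem PH_adj {ι κ : Type} [Fintype ι] [DecidableEq ι] [Fintype κ] [DecidableEq κ]
    (β : Matrix ι ι A) : (dsum β (1 : Matrix κ κ A)).adjugate =
      dsum β.adjugate (β.det • (1 : Matrix κ κ A)) := by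
  ext i j
  rw [Matrix.adjugate_apply]
  rcases i with a | a <;> rcases j with b | b
  · have : (dsum β (1 : Matrix κ κ A)).updateRow (Sum.inl b) (Pi.single (Sum.inl a) 1) =
        Matrix.fromBlocks (β.updateRow b (Pi.single a 1)) 0 0 1 := by
      ext x y
      rcases x with x | x <;> rcases y with y | y <;>
        simp [dsum, Matrix.updateRow_apply, Pi.single_apply]
    rw [this, Matrix.det_fromBlocks_zero₂₁, Matrix.det_one, mul_one, ← Matrix.adjugate_apply]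
    rfl
  · have : (dsum β (1 : Matrix κ κ A)).updateRow (Sum.inr b) (Pi.single (Sum.inl a) 1) =
        Matrix.fromBlocks β 0 (Matrix.of fun x y => if x = b ∧ y = a then 1 else 0)
          ((1 : Matrix κ κ A).updateRow b 0) := by
      ext x y
      rcases x with x | x <;> rcases y with y | y <;>
        simp [dsum, Matrix.updateRow_apply, Pi.single_apply, ite_and]
    rw [this, Matrix.det_fromBlocks_zero₁₂]
    have h0 : ((1 : Matrix κ κ A).updateRow b 0).det = 0 :=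
      Matrix.det_eq_zero_of_row_eq_zero b (fun j => by simp)
    rw [h0, mul_zero]
    rfl
  · have : (dsum β (1 : Matrix κ κ A)).updateRow (Sum.inl b) (Pi.single (Sum.inr a) 1) =
        Matrix.fromBlocks (β.updateRow b 0) (Matrix.of fun x y => if x = b ∧ y = a then 1 else 0)
          0 (1 : Matrix κ κ A) := by
      ext x y
      rcases x with x | x <;> rcases y with y | y <;>
        simp [dsum, Matrix.updateRow_apply, Pi.single_apply, ite_and]
    rw [this, Matrix.det_fromBlocks_zero₂₁]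
    have h0 : (β.updateRow b 0).det = 0 :=
      Matrix.det_eq_zero_of_row_eq_zero b (fun j => by simp)
    rw [h0, zero_mul]
    rfl
  · have : (dsum β (1 : Matrix κ κ A)).updateRow (Sum.inr b) (Pi.single (Sum.inr a) 1) =
        Matrix.fromBlocks β 0 0 ((1 : Matrix κ κ A).updateRow b (Pi.single a 1)) := by
      ext x y
      rcases x with x | x <;> rcases y with y | y <;>
        simp [dsum, Matrix.updateRow_apply, Pi.single_apply]
    rw [this, Matrix.det_fromBlocks_zero₂₁, ← Matrix.adjugate_apply, Matrix.adjugate_one]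
    simp [dsum]

/-- stabilization. -/
theorem PH_stab (𝒦 : K1Data.{u} A) (c : A) {ι κ : Type} [Fintype ι] [DecidableEq ι] [Fintype κ]
    [DecidableEq κ] (β : Matrix ι ι A) (t : A) (hβ : β.det + c * t = 1) :
    𝒦.k (PH_M c (dsum β (1 : Matrix κ κ A)) t) = 𝒦.k (PH_M c β t) := by
  have h1 : Matrix.reindex (Equiv.sumSumSumComm ι κ ι κ) (Equiv.sumSumSumComm ι κ ι κ)
      (PH_M c (dsum β (1 : Matrix κ κ A)) t) =
      dsum (PH_M c β t) (Matrix.fromBlocks 1 (c • (1 : Matrix κ κ A))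
        (-(t • (1 : Matrix κ κ A))) (β.det • 1)) := by
    rw [PH_M, PH_adj]
    ext x y
    rcases x with (x | x) | (x | x) <;> rcases y with (y | y) | (y | y) <;>
      simp [dsum, PH_M, Matrix.one_apply]
  have h2 : Matrix.fromBlocks 1 (c • (1 : Matrix κ κ A)) (-(t • (1 : Matrix κ κ A))) (β.det • 1) =
      Matrix.fromBlocks 1 0 (-(t • (1 : Matrix κ κ A))) 1 *
        Matrix.fromBlocks 1 (c • (1 : Matrix κ κ A)) 0 1 := by
    rw [Matrix.fromBlocks_multiply]
    congr 1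
    · simp
    · simp
    · simp
    · rw [show β.det = 1 - t * c by linear_combination hβ, sub_smul]
      simp [smul_smul, mul_comm t c]
      abel
  have h3 : Matrix.fromBlocks 1 (c • (1 : Matrix κ κ A)) (-(t • (1 : Matrix κ κ A)))
      (β.det • 1) ∈ E (κ ⊕ κ) A := by
    rw [h2]; exact E_mul (E_blocks_lower _) (E_blocks_upper _)
  have u1 := PH_M_unit c β t hβ
  rw [← 𝒦.k_reindex (Equiv.sumSumSumComm ι κ ι κ), h1]
  have h4 : dsum (PH_M c β t) (Matrix.fromBlocks 1 (c • (1 : Matrix κ κ A))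
        (-(t • (1 : Matrix κ κ A))) (β.det • 1)) = dsum (PH_M c β t) 1 *
      Matrix.fromBlocks 1 0 0 (Matrix.fromBlocks 1 (c • (1 : Matrix κ κ A))
        (-(t • (1 : Matrix κ κ A))) (β.det • 1)) := by
    rw [dsum, dsum, Matrix.fromBlocks_multiply]
    congr 1 <;> simp
  rw [h4, PH_k_mul_E 𝒦 (by rw [PH_det_dsum, Matrix.det_one, mul_one]; exact u1)
    (E_blocks_right h3), 𝒦.k_dsum_one _ u1]

end Aux

theorem PH : PH_stmt.{u} := by
  intro A _ 𝒦 c
  refine ⟨fun {ι} _ _ β t => 𝒦.k (PH_M c β t), ?_, ?_, ?_, ?_, ?_⟩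
  · intro ι _ _ β t _
    rfl
  · intro ι _ _ β γ t u hβ hγ
    exact PH_mul 𝒦 c β γ t u hβ hγ
  · intro ι _ _ β γ Y t u hβ hγ h
    exact PH_mod 𝒦 c β γ Y t u hβ hγ h
  · intro ι _ _ β t hE hβ
    exact PH_elem 𝒦 c β t hE hβ
  · intro ι κ _ _ _ _ β t hβ
    exact PH_stab 𝒦 c β t hβ

end GB
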